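import Pool.Agent.Helper72.LSr.CEDef

/-!
# LSr, piece LR-S3c: (M1)
-/

namespace Pool.Agent.Helper30.LSr

open Finset
open scoped Classical
open Pool.Agent.Helper72.LSr

variable {V : Type} {j : ℕ} {G : SimpleGraph V} {S : Finset V} {k A B : ℕ}

/-- (M1) -/
theorem all_D_pos
    (hcl : ∀ {w : V}, w ∈ S → ∀ t : ℤ, 0 ≤ t → Dv k A B G S w = -t →
      Yv k A B G S w ≤ -(t + 1) ^ 2 → ∀ x ∈ nb G S w, 1 ≤ cv k A B G S w x)
    (h : CE V j G S k A B) : ∀ v ∈ S, 1 ≤ Dv k A B G S v := by
  intro v hv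
  obtain ⟨z, hz, hmin⟩ := exists_min_image S (fun u => Dv k A B G S u) ⟨v, hv⟩
  by_contra hcon
  push Not at hcon
  have hDz : Dv k A B G S z ≤ 0 := by
    have := hmin v hv
    omega
  obtain ⟨t, ht⟩ : ∃ t : ℤ, Dv k A B G S z = -t := ⟨- Dv k A B G S z, by ring⟩
  have ht0 : 0 ≤ t := by linarith
  have hE2 := id_E2 G S hz k A B
  have hNH := card_NH G S hz k A B
  have hsum : ((NH G S z).card : ℤ) * (-t) ≤ ∑ u ∈ NH G S z, Dv k A B G S u := by
    have : ∑ u ∈ NH G S z, (-t) ≤ ∑ u ∈ NH G S z, Dv k A B G S u := by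
      apply sum_le_sum
      intro u hu
      have hu' : u ∈ S := by
        unfold NH at hu
        exact (mem_filter.1 hu).1
      have := hmin u hu'
      linarith
    rw [sum_const, nsmul_eq_mul] at this
    exact this
  have hmm := K_nonneg G (NH G S z) 2
  have hM := rS_add_gS G S k A B
  have hr := h.hr
  have hg := h.hg
  have hY : Yv k A B G S z ≤ -(t + 1) ^ 2 := by
    rw [hNH, ht] at hsum
    rw [ht] at hE2
    have hM1 : 1 ≤ MS k A B S := by linarith
    have h1 : 0 ≤ t * (MS k A B S - 1) := mul_nonneg ht0 (by linarith)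
    nlinarith
  have hc := hcl hz t ht0 ht hY
  -- degrees inside `N_z`
  have h2 := two_K_two G (nb G S z)
  have h3 : ∑ x ∈ nb G S z, ((nb G (nb G S z) x).card : ℤ)
      ≤ ∑ _x ∈ nb G S z, (EE k A B - 1) := by
    apply sum_le_sum
    intro x hx
    rw [nb_nb]
    have := hc x hx
    unfold cv at this
    linarith
  rw [sum_const, nsmul_eq_mul] at h3
  have hd : ((nb G S z).card : ℤ) = EE k A B + k + 1 + t := by
    have := ht
    unfold Dv at this
    linarith
  have hYe : K G (nb G S z) 2 = es k A B 3 + EE k A B * ((nb G S z).card - EE k A B)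
      - Yv k A B G S z := by
    unfold Yv; ring
  have h4 := two_es3_ge k A B
  have hE := EE_nonneg k A B
  rw [hd] at h3 hYe
  have hk : (0 : ℤ) ≤ k := by positivity
  have hEt : 0 ≤ EE k A B * t := mul_nonneg hE ht0
  nlinarith

end Pool.Agent.Helper30.LSr
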